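import Mathlib

namespace Pool.Agent.Results.MP_a76361_lc.Small

open Finset

/-- The covering polyhedron `{x ≥ 0 : A x ≥ b}`. -/
def poly {r d : ℕ} (A : Fin r → Fin d → ℝ) (b : Fin r → ℝ) : Set (Fin d → ℝ) :=
  {x | (∀ k, 0 ≤ x k) ∧ ∀ i, b i ≤ ∑ k, A i k * x k}

/-- `N` is a symmetric monotonic norm. -/
def SymMono {d : ℕ} (N : Seminorm ℝ (Fin d → ℝ)) : Prop :=
  (∀ x, N x = 0 → x = 0) ∧ (∀ (σ : Equiv.Perm (Fin d)) (x : Fin d → ℝ), N (x ∘ σ) = N x) ∧
    ∀ x y : Fin d → ℝ, (∀ k, 0 ≤ x k) → (∀ k, x k ≤ y k) → N x ≤ N y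

/-- `X` is an `α`-approximate portfolio for `P` and the symmetric monotonic norms. -/
def IsPortfolio {d : ℕ} (P : Set (Fin d → ℝ)) (α : ℝ) (X : Finset (Fin d → ℝ)) : Prop :=
  (∀ x ∈ X, x ∈ P) ∧
    ∀ N : Seminorm ℝ (Fin d → ℝ), SymMono N → ∃ x ∈ X, ∀ y ∈ P, N x ≤ α * N y

variable {d : ℕ}

lemma inj_le {N : Seminorm ℝ (Fin d → ℝ)} (hN : SymMono N) (y : Fin d → ℝ) (hy : ∀ k, 0 ≤ y k)
    (S : Fin d → Prop) [DecidablePred S] (φ : Fin d → Fin d)
    (hφ : ∀ a b, S a → S b → φ a = φ b → a = b) :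
    N (fun k => if S k then y (φ k) else 0) ≤ N y := by
  obtain ⟨σ, hσ⟩ := Equiv.Perm.exists_extending_pair (α := {k // S k}) (f := Subtype.val)
    (g := fun k => φ k.1) Subtype.val_injective
    (fun a b h => Subtype.ext (hφ a.1 b.1 a.2 b.2 h))
  rw [← hN.2.1 σ y]
  apply hN.2.2
  · intro k; split_ifs
    · exact hy _
    · exact le_rfl
  · intro k
    split_ifs with h
    · exact le_of_eq (congrArg y (hσ ⟨k, h⟩).symm)
    · exact hy _

lemma seminorm_sum {ι : Type} (N : Seminorm ℝ (Fin d → ℝ)) (s : Finset ι) (f : ι → Fin d → ℝ) :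
    N (∑ i ∈ s, f i) ≤ ∑ i ∈ s, N (f i) := by
  classical
  induction s using Finset.induction_on with
  | empty => simp
  | insert a s ha ih =>
    rw [sum_insert ha, sum_insert ha]
    exact (map_add_le_add N _ _).trans (by linarith)

/-- constant vectors -/
lemma const_le {N : Seminorm ℝ (Fin d → ℝ)} (hN : SymMono N) (y : Fin d → ℝ) (hy : ∀ k, 0 ≤ y k)
    (k0 : Fin d) : N (fun _ => y k0) ≤ d * N y := by
  have e : (fun _ : Fin d => y k0) = ∑ j : Fin d, fun k => if k = j then y k0 else 0 := by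
    funext k; simp [Finset.sum_apply]
  rw [e]
  refine (seminorm_sum N _ _).trans ?_
  have : ∀ j : Fin d, N (fun k => if k = j then y k0 else 0) ≤ N y := fun j =>
    inj_le hN y hy (fun k => k = j) (fun _ => k0) (fun a b ha hb _ => ha.trans hb.symm)
  refine (sum_le_sum fun j _ => this j).trans ?_
  simp

lemma stretch_le {N : Seminorm ℝ (Fin d → ℝ)} (hN : SymMono N) (y : Fin d → ℝ)
    (hy : ∀ k, 0 ≤ y k) (g : ℕ) (hg : 0 < g) :
    N (fun k => y ⟨k.val / g, lt_of_le_of_lt (Nat.div_le_self _ _) k.2⟩) ≤ g * N y := by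
  have e : (fun k : Fin d => y ⟨k.val / g, lt_of_le_of_lt (Nat.div_le_self _ _) k.2⟩) =
      ∑ j ∈ range g, fun k : Fin d => if k.val % g = j then
        y ⟨k.val / g, lt_of_le_of_lt (Nat.div_le_self _ _) k.2⟩ else 0 := by
    funext k
    rw [Finset.sum_apply, sum_ite_eq, if_pos (mem_range.2 (Nat.mod_lt _ hg))]
  rw [e]
  refine (seminorm_sum N _ _).trans ?_
  have : ∀ j ∈ range g, N (fun k : Fin d => if k.val % g = j then
        y ⟨k.val / g, lt_of_le_of_lt (Nat.div_le_self _ _) k.2⟩ else 0) ≤ N y := by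
    intro j _
    refine inj_le hN y hy (fun k => k.val % g = j)
      (fun k => ⟨k.val / g, lt_of_le_of_lt (Nat.div_le_self _ _) k.2⟩) ?_
    intro a b ha hb h
    have h1 : a.val / g = b.val / g := congrArg Fin.val h
    apply Fin.ext
    rw [← Nat.div_add_mod a.val g, ← Nat.div_add_mod b.val g, h1, ha, hb]
  refine (sum_le_sum this).trans ?_
  simp

noncomputable def dn (x : Fin d → ℝ) : Fin d → ℝ := x ∘ (Fin.revPerm.trans (Tuple.sort x))

lemma dn_anti (x : Fin d → ℝ) : Antitone (dn x) := fun _ _ h =>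
  Tuple.monotone_sort x (Fin.rev_le_rev.2 h)

noncomputable def lev (g : ℕ) (t a : ℝ) : ℕ := Nat.log g (⌊a / t⌋₊ + 1)

lemma lev_mono (g : ℕ) {t a a' : ℝ} (ht : 0 < t) (h : a ≤ a') : lev g t a ≤ lev g t a' :=
  Nat.log_mono_right (Nat.succ_le_succ (Nat.floor_mono (by gcongr)))

lemma lev_eq {g : ℕ} (hg : 1 < g) {t a a' : ℝ} (ht : 0 < t) (ha' : 0 ≤ a')
    (h : lev g t a = lev g t a') : a ≤ g * a' + g * t := by
  have h1 := Nat.lt_pow_succ_log_self hg (⌊a / t⌋₊ + 1)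
  have h2 := Nat.pow_log_le_self g (x := ⌊a' / t⌋₊ + 1) (by omega)
  unfold lev at h
  rw [h, Nat.succ_eq_add_one, pow_succ] at h1
  have h3 : ⌊a / t⌋₊ + 1 ≤ (⌊a' / t⌋₊ + 1) * g := h1.le.trans (Nat.mul_le_mul_right _ h2)
  have h4 : ((⌊a / t⌋₊ : ℝ) + 1) ≤ (⌊a' / t⌋₊ + 1) * g := by exact_mod_cast h3
  have h5 := Nat.lt_floor_add_one (a / t)
  have h6 : (⌊a' / t⌋₊ : ℝ) ≤ a' / t := Nat.floor_le (by positivity)
  have h7 : a / t ≤ (a' / t + 1) * g := by
    have : ((⌊a' / t⌋₊ : ℝ) + 1) * g ≤ (a' / t + 1) * g := by gcongr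
    linarith
  rw [div_le_iff₀ ht] at h7
  have e : (a' / t + 1) * g * t = g * a' + g * t := by field_simp
  linarith

noncomputable def prof (g L : ℕ) (t : ℝ) (y : Fin d → ℝ) (i : Fin (L + 1)) : ℕ :=
  (if h : g ^ i.val - 1 < d then lev g t (dn y ⟨g ^ i.val - 1, h⟩) else 0) + (L - i.val)

lemma prof_anti {g : ℕ} (hg : 1 < g) (L : ℕ) {t : ℝ} (ht : 0 < t) (y : Fin d → ℝ) :
    StrictAnti (prof g L t y) := by
  intro i j hij
  have h1 : i.val < j.val := hij
  have h2 : g ^ i.val ≤ g ^ j.val := Nat.pow_le_pow_right (by omega) h1.le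
  have h3 := j.2
  unfold prof
  have : (if h : g ^ j.val - 1 < d then lev g t (dn y ⟨g ^ j.val - 1, h⟩) else 0) ≤
      (if h : g ^ i.val - 1 < d then lev g t (dn y ⟨g ^ i.val - 1, h⟩) else 0) := by
    split_ifs with a b
    · exact lev_mono g ht (dn_anti y (by show g ^ i.val - 1 ≤ g ^ j.val - 1; omega))
    · omega
    · exact Nat.zero_le _
    · exact le_rfl
  omega

lemma prof_le {N : Seminorm ℝ (Fin d → ℝ)} (hN : SymMono N) {g L : ℕ} (hg : 1 < g)
    (hL : d ≤ g ^ L) {t : ℝ} (ht : 0 < t) (x y : Fin d → ℝ) (hx : ∀ k, 0 ≤ x k)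
    (hy : ∀ k, 0 ≤ y k) (h : prof g L t x = prof g L t y) :
    N x ≤ g * (g * N y) + g * N (fun _ => t) := by
  have hdy : ∀ k, 0 ≤ dn y k := fun k => hy _
  have key : ∀ k : Fin d, dn x k ≤
      ((g : ℝ) • (fun k : Fin d => dn y ⟨k.val / g, lt_of_le_of_lt (Nat.div_le_self _ _) k.2⟩) +
        (g : ℝ) • (fun _ : Fin d => t)) k := by
    intro k
    have h1 := Nat.lt_pow_succ_log_self hg (k.val + 1)
    have h2 := Nat.pow_log_le_self g (x := k.val + 1) (by omega)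
    set i := Nat.log g (k.val + 1) with hi
    have hk := k.2
    have hiL : i < L + 1 := by
      have : g ^ i ≤ g ^ L := by omega
      have := (Nat.pow_le_pow_iff_right hg).1 this
      omega
    have h3 : g ^ i - 1 < d := by omega
    have h4 := congrFun h ⟨i, hiL⟩
    simp only [prof, dif_pos h3, add_left_inj] at h4
    have h5 := lev_eq hg ht (hdy _) h4
    have h6 : dn x k ≤ dn x ⟨g ^ i - 1, h3⟩ := dn_anti x (by show g ^ i - 1 ≤ k.val; omega)
    have h7 : dn y ⟨g ^ i - 1, h3⟩ ≤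
        dn y ⟨k.val / g, lt_of_le_of_lt (Nat.div_le_self _ _) k.2⟩ := by
      apply dn_anti y
      show k.val / g ≤ g ^ i - 1
      have : k.val / g < g ^ i := by
        rw [Nat.div_lt_iff_lt_mul (by omega)]
        rw [Nat.succ_eq_add_one, pow_succ] at h1
        omega
      omega
    have hg0 : (0 : ℝ) ≤ g := by positivity
    have h8 := mul_le_mul_of_nonneg_left h7 hg0
    simp only [Pi.add_apply, Pi.smul_apply, smul_eq_mul]
    linarith
  have e1 : N (dn x) = N x := hN.2.1 _ x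
  have e2 : N (dn y) = N y := hN.2.1 _ y
  rw [← e1, ← e2]
  refine (hN.2.2 _ _ (fun k => hx _) key).trans ((map_add_le_add N _ _).trans ?_)
  rw [map_smul_eq_mul, map_smul_eq_mul, Real.norm_natCast]
  have := stretch_le hN (dn y) hdy g (by omega)
  gcongr

lemma exists_coord (hd : 0 < d) (y : Fin d → ℝ) (hy : ∀ k, 0 ≤ y k) : ∃ k, ‖y‖ ≤ y k := by
  haveI : Nonempty (Fin d) := ⟨⟨0, hd⟩⟩
  obtain ⟨k, hk⟩ := Finite.exists_max y
  refine ⟨k, (pi_norm_le_iff_of_nonneg (hy k)).2 fun j => ?_⟩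
  rw [Real.norm_of_nonneg (hy j)]; exact hk j

lemma const_le' {N : Seminorm ℝ (Fin d → ℝ)} (hN : SymMono N) (hd : 0 < d) (y : Fin d → ℝ)
    (hy : ∀ k, 0 ≤ y k) (a : ℝ) (ha : 0 ≤ a) (h : d * a ≤ ‖y‖) : N (fun _ => a) ≤ N y := by
  obtain ⟨k, hk⟩ := exists_coord hd y hy
  have h1 := const_le hN y hy k
  have h2 : N (fun _ => d * a) ≤ N (fun _ => y k) :=
    hN.2.2 _ _ (fun _ => by positivity) (fun _ => h.trans hk)
  have h3 : N (fun _ => d * a) = d * N (fun _ => a) := by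
    have : (fun _ : Fin d => d * a) = (d : ℝ) • (fun _ : Fin d => a) := rfl
    rw [this, map_smul_eq_mul, Real.norm_natCast]
  have hd0 : (0 : ℝ) < d := by exact_mod_cast hd
  have : d * N (fun _ => a) ≤ d * N y := by linarith
  exact le_of_mul_le_mul_left this hd0

lemma main {g L : ℕ} (hg : 1 < g) (hd : 0 < d) (hL : d ≤ g ^ L) (P : Set (Fin d → ℝ))
    (hP : IsClosed P) (hne : P.Nonempty) (h0 : ∀ y ∈ P, ∀ k, 0 ≤ y k) :
    ∃ X : Finset (Fin d → ℝ), IsPortfolio P (g * g + g) X ∧ X.card ≤ 2 ^ (3 * L + 2) := by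
  classical
  obtain ⟨y0, hy0, hm⟩ := hP.exists_infDist_eq_dist hne 0
  have hmin : ∀ y ∈ P, ‖y0‖ ≤ ‖y‖ := by
    intro y hy
    have := Metric.infDist_le_dist_of_mem (x := (0 : Fin d → ℝ)) hy
    rw [hm] at this
    simpa using this
  have hg0 : (0 : ℝ) ≤ g := by positivity
  have hg1 : (1 : ℝ) ≤ g := by exact_mod_cast hg.le
  by_cases hz : y0 = 0
  · refine ⟨{y0}, ⟨by simpa using hy0, fun N _ => ⟨y0, by simp, fun y _ => ?_⟩⟩, ?_⟩
    · rw [hz, map_zero]; positivity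
    · simpa using Nat.one_le_two_pow
  have hm0 : 0 < ‖y0‖ := norm_pos_iff.2 hz
  have hd0 : (0 : ℝ) < d := by exact_mod_cast hd
  set t := ‖y0‖ / d with ht
  have ht0 : 0 < t := by positivity
  let code : (Fin d → ℝ) → Finset ℕ := fun y => univ.image (prof g L t y)
  let rep : Finset ℕ → (Fin d → ℝ) := fun A =>
    if h : ∃ y ∈ P, code y = A then h.choose else y0
  have hrep : ∀ A, rep A ∈ P := by
    intro A
    simp only [rep]
    split_ifs with h
    · exact h.choose_spec.1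
    · exact hy0
  have hrep2 : ∀ y ∈ P, prof g L t (rep (code y)) = prof g L t y := by
    intro y hy
    have h : ∃ y' ∈ P, code y' = code y := ⟨y, hy, rfl⟩
    have h1 : code (rep (code y)) = code y := by
      simp only [rep, dif_pos h]
      exact h.choose_spec.2
    apply ((prof_anti hg L ht0 _).range_inj (prof_anti hg L ht0 _)).1
    have := congrArg (fun s : Finset ℕ => (s : Set ℕ)) h1
    simpa [code] using this
  have hcode : ∀ y ∈ P, ‖y‖ ≤ d * ‖y0‖ → code y ∈ (range (3 * L + 2)).powerset := by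
    intro y hy hyn
    rw [mem_powerset]
    intro a ha
    obtain ⟨i, -, rfl⟩ := mem_image.1 ha
    rw [mem_range]
    unfold prof
    have : ∀ k, lev g t (dn y k) < 2 * L + 2 := by
      intro k
      have h1 : dn y k ≤ d * ‖y0‖ := (le_abs_self _).trans ((norm_le_pi_norm y _).trans hyn)
      refine lt_of_le_of_lt (lev_mono g ht0 h1) ?_
      unfold lev
      apply Nat.log_lt_of_lt_pow (by omega)
      have e : d * ‖y0‖ / t = ((d * d : ℕ) : ℝ) := by rw [ht]; push_cast; field_simp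
      rw [e, Nat.floor_natCast]
      have h2 : d * d ≤ g ^ L * g ^ L := Nat.mul_le_mul hL hL
      have h3 : 1 ≤ g ^ L * g ^ L := by nlinarith
      have e2 : g ^ (2 * L + 2) = g ^ L * g ^ L * (g * g) := by ring
      have h4 : 4 ≤ g * g := by nlinarith
      have h5 := Nat.mul_le_mul_left (g ^ L * g ^ L) h4
      rw [e2]; omega
    split_ifs with h
    · have := this ⟨_, h⟩; omega
    · omega
  set X := ((range (3 * L + 2)).powerset).image rep with hX
  have hall : ∀ N, SymMono N → ∀ y ∈ P, ‖y‖ ≤ d * ‖y0‖ → N (rep (code y)) ≤ (g * g + g) * N y := by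
    intro N hN y hy _
    have h1 := prof_le hN hg hL ht0 _ y (h0 _ (hrep _)) (h0 y hy) (hrep2 y hy)
    have h2 : N (fun _ => t) ≤ N y := const_le' hN hd y (h0 y hy) t ht0.le
      (by rw [ht, mul_div_cancel₀ _ hd0.ne']; exact hmin y hy)
    have := mul_le_mul_of_nonneg_left h2 hg0
    linarith
  have hd1 : (1 : ℝ) ≤ d := by exact_mod_cast hd
  have hy0n : ‖y0‖ ≤ d * ‖y0‖ := by nlinarith
  refine ⟨X, ⟨?_, fun N hN => ?_⟩, card_image_le.trans (by simp)⟩
  · intro x hx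
    obtain ⟨A, -, rfl⟩ := mem_image.1 hx
    exact hrep A
  · obtain ⟨x, hx, hxm⟩ := exists_min_image X N ⟨_, mem_image.2 ⟨_, hcode y0 hy0 hy0n, rfl⟩⟩
    refine ⟨x, hx, fun y hy => ?_⟩
    by_cases hyn : ‖y‖ ≤ d * ‖y0‖
    · exact (hxm _ (mem_image.2 ⟨_, hcode y hy hyn, rfl⟩)).trans (hall N hN y hy hyn)
    · refine (hxm _ (mem_image.2 ⟨_, hcode y0 hy0 hy0n, rfl⟩)).trans
        ((hall N hN y0 hy0 hy0n).trans ?_)
      have h1 : N y0 ≤ N (fun _ => ‖y0‖) :=
        hN.2.2 _ _ (h0 y0 hy0) fun k => (le_abs_self _).trans (norm_le_pi_norm y0 k)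
      have h2 := const_le' hN hd y (h0 y hy) _ hm0.le (not_le.1 hyn).le
      gcongr
      exact h1.trans h2

theorem result (c δ : ℝ) (hc : 0 < c) (hδ : 0 < δ) :
    ∃ d₀ : ℕ, ∀ d ≥ d₀, ∀ (r : ℕ) (A : Fin r → Fin d → ℝ) (b : Fin r → ℝ),
      (∀ i k, 0 ≤ A i k) → (∀ i, 0 ≤ b i) → (poly A b).Nonempty →
      ∃ X : Finset (Fin d → ℝ), IsPortfolio (poly A b) (c * Real.log d) X ∧
        (X.card : ℝ) < (d : ℝ) ^ δ := by
  obtain ⟨T, hT⟩ := exists_nat_gt (6 / δ)
  have hT0 : (0 : ℝ) < T := lt_trans (by positivity) hT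
  have hT1 : 0 < T := by exact_mod_cast hT0
  set g := 2 ^ T with hg
  have hg1 : 1 < g := Nat.one_lt_two_pow (by omega)
  have e1 : ∀ᶠ d : ℕ in Filter.atTop, ((g : ℝ) * g + g) ≤ c * Real.log d :=
    ((Real.tendsto_log_atTop.comp tendsto_natCast_atTop_atTop).const_mul_atTop hc).eventually_ge_atTop _
  have e2 : ∀ᶠ d : ℕ in Filter.atTop, (32 : ℝ) ≤ (d : ℝ) ^ (δ / 2) :=
    ((tendsto_rpow_atTop (by positivity : 0 < δ / 2)).comp
      tendsto_natCast_atTop_atTop).eventually_ge_atTop _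
  obtain ⟨d0, hd0⟩ := Filter.eventually_atTop.1 (e1.and (e2.and (Filter.eventually_ge_atTop 2)))
  refine ⟨d0, fun d hd r A b _ _ hne => ?_⟩
  obtain ⟨h1, h2, h3⟩ := hd0 d hd
  have hcl : IsClosed (poly A b) := by
    have : poly A b = (⋂ k, {x : Fin d → ℝ | 0 ≤ x k}) ∩ ⋂ i, {x | b i ≤ ∑ k, A i k * x k} := by
      ext x; simp [poly]
    rw [this]
    exact (isClosed_iInter fun k => isClosed_le continuous_const (continuous_apply k)).inter
      (isClosed_iInter fun i => isClosed_le continuous_const (by fun_prop))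
  obtain ⟨X, hX, hc2⟩ := main hg1 (by omega) (Nat.le_pow_clog hg1 d) _ hcl hne (fun y hy => hy.1)
  refine ⟨X, ⟨hX.1, fun N hN => ?_⟩, ?_⟩
  · obtain ⟨x, hx, hxy⟩ := hX.2 N hN
    exact ⟨x, hx, fun y hy => (hxy y hy).trans (mul_le_mul_of_nonneg_right h1 (apply_nonneg N y))⟩
  · have h4 := Nat.pow_pred_clog_lt_self hg1 (x := d) (by omega)
    have h5 : 0 < Nat.clog g d := Nat.clog_pos hg1 (by omega)
    obtain ⟨l, hl⟩ : ∃ l, Nat.clog g d = l + 1 := ⟨_, (Nat.succ_pred_eq_of_pos h5).symm⟩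
    rw [hl] at h4 hc2
    simp only [Nat.pred_succ, hg] at h4
    have h6 : ((2 : ℝ) ^ T) ^ l < d := by exact_mod_cast h4
    have hdpos : (0 : ℝ) < d := lt_trans (by positivity) h6
    have h7 : (2 : ℝ) ^ (3 * l) < (d : ℝ) ^ (δ / 2) := by
      have h8 : (((2 : ℝ) ^ T) ^ l) ^ (δ / 2) < (d : ℝ) ^ (δ / 2) :=
        Real.rpow_lt_rpow (by positivity) h6 (by positivity)
      refine lt_of_le_of_lt ?_ h8
      rw [← pow_mul, ← Real.rpow_natCast, ← Real.rpow_natCast, ← Real.rpow_mul (by norm_num)]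
      apply Real.rpow_le_rpow_of_exponent_le (by norm_num)
      push_cast
      rw [div_lt_iff₀ hδ] at hT
      have : (0 : ℝ) ≤ l := by positivity
      nlinarith
    have h9 : (X.card : ℝ) ≤ 2 ^ (3 * (l + 1) + 2) := by exact_mod_cast hc2
    have h10 : (2 : ℝ) ^ (3 * (l + 1) + 2) = 32 * 2 ^ (3 * l) := by ring
    calc (X.card : ℝ) ≤ 32 * 2 ^ (3 * l) := h10 ▸ h9
      _ < (d : ℝ) ^ (δ / 2) * (d : ℝ) ^ (δ / 2) := by
          have : (0 : ℝ) < 2 ^ (3 * l) := by positivity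
          nlinarith
      _ = _ := by rw [← Real.rpow_add hdpos]; congr 1; ring

end Pool.Agent.Results.MP_a76361_lc.Small
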